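import Pool.Agent.H59.L.S8.Y812.LK.A

/-!
Lower bound for the number of abc points over a number field: counting quotients.
-/

set_option autoImplicit false

namespace Pool.Agent.Y812.LK

open Finset NumberField IsDedekindDomain Pool.Agent.H691R3 Pool.Agent.TH876.Loc Pool.Agent.TH876.KR
open Pool.Agent.Y728 (av_inl_le_house sum_mult liouville)

variable {K : Type} [Field K] [NumberField K]

open scoped Pointwise in
open Classical in
theorem quot_count (B : Finset (𝓞 K)) (h0 : ∀ a ∈ B, a ≠ 0) (D : ℕ)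
    (hD : ∀ a ∈ B, ∀ b ∈ B, (B.filter fun c => c ∣ a * b).card ≤ D) :
    B.card ^ 2 ≤ ((B ×ˢ B).image fun p => (p.1 : K) / (p.2 : K)).card * D := by
  have hinj : Function.Injective fun a : 𝓞 K => (a : K) := fun a b h =>
    RingOfIntegers.coe_injective h
  have hinj' : Function.Injective fun a : 𝓞 K => (a : K)⁻¹ := fun a b h =>
    RingOfIntegers.coe_injective (inv_injective h)
  set s : Finset K := B.image (fun a : 𝓞 K => (a : K)) with hs
  set t : Finset K := B.image (fun a : 𝓞 K => (a : K)⁻¹) with ht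
  have hsc : s.card = B.card := Finset.card_image_of_injective _ hinj
  have htc : t.card = B.card := Finset.card_image_of_injective _ hinj'
  have hst : s * t ⊆ (B ×ˢ B).image fun p => (p.1 : K) / (p.2 : K) := by
    intro x hx
    obtain ⟨y, hy, z, hz, rfl⟩ := Finset.mem_mul.1 hx
    obtain ⟨a, ha, rfl⟩ := Finset.mem_image.1 hy
    obtain ⟨b, hb, rfl⟩ := Finset.mem_image.1 hz
    exact Finset.mem_image.2 ⟨(a, b), Finset.mem_product.2 ⟨ha, hb⟩, div_eq_mul_inv _ _⟩
  have hE : Finset.mulEnergy s t ≤ D * (s ×ˢ t).card := by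
    unfold Finset.mulEnergy
    refine Finset.card_le_mul_card_image_of_maps_to (f := fun x => (x.1.1, x.2.2)) ?_ D ?_
    · intro x hx
      have hx' := Finset.mem_filter.1 hx
      have h1 := Finset.mem_product.1 hx'.1
      exact Finset.mem_product.2 ⟨(Finset.mem_product.1 h1.1).1, (Finset.mem_product.1 h1.2).2⟩
    · rintro ⟨y, z⟩ hyz
      obtain ⟨hy, hz⟩ := Finset.mem_product.1 hyz
      obtain ⟨a, ha, rfl⟩ := Finset.mem_image.1 hy
      obtain ⟨b, hb, rfl⟩ := Finset.mem_image.1 hz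
      refine le_trans ?_ (hD a ha b hb)
      have key : ∀ x ∈ ((s ×ˢ s) ×ˢ t ×ˢ t).filter (fun x => x.1.1 * x.2.1 = x.1.2 * x.2.2),
          (x.1.1, x.2.2) = ((a : K), (b : K)⁻¹) →
          ∃ c ∈ B, ∃ d ∈ B, x.1.2 = (c : K) ∧ x.2.1 = (d : K)⁻¹ ∧ a * b = c * d := by
        intro x hx he
        have hx' := Finset.mem_filter.1 hx
        have h1 := Finset.mem_product.1 hx'.1
        obtain ⟨c, hc, hc'⟩ := Finset.mem_image.1 (Finset.mem_product.1 h1.1).2
        obtain ⟨d, hd, hd'⟩ := Finset.mem_image.1 (Finset.mem_product.1 h1.2).1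
        refine ⟨c, hc, d, hd, hc'.symm, hd'.symm, ?_⟩
        have e1 : x.1.1 = (a : K) := congrArg Prod.fst he
        have e2 : x.2.2 = (b : K)⁻¹ := congrArg Prod.snd he
        have e3 := hx'.2
        rw [e1, e2, ← hc', ← hd'] at e3
        have nb := coe_ne (h0 b hb)
        have nd := coe_ne (h0 d hd)
        have e4 : (a : K) * b = c * d := by
          field_simp at e3
          linear_combination e3
        apply RingOfIntegers.coe_injective
        exact e4
      calc _ ≤ ((B.filter fun c => c ∣ a * b).image (fun a : 𝓞 K => (a : K))).card := by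
            refine Finset.card_le_card_of_injOn (fun x => x.1.2) ?_ ?_
            · intro x hx
              have hx' := Finset.mem_filter.1 hx
              obtain ⟨c, hc, d, hd, e1, e2, e3⟩ := key x hx'.1 hx'.2
              show x.1.2 ∈ _
              rw [e1]
              exact Finset.mem_coe.2 (Finset.mem_image.2 ⟨c, Finset.mem_filter.2 ⟨hc, ⟨d, e3⟩⟩, rfl⟩)
            · intro x hx y hy hxy
              have hx' := Finset.mem_filter.1 hx
              have hy' := Finset.mem_filter.1 hy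
              obtain ⟨c, hc, d, hd, e1, e2, e3⟩ := key x hx'.1 hx'.2
              obtain ⟨c', hc', d', hd', e1', e2', e3'⟩ := key y hy'.1 hy'.2
              have hxy' : x.1.2 = y.1.2 := hxy
              have f1 : x.1.1 = y.1.1 := by
                rw [show x.1.1 = (a : K) from congrArg Prod.fst hx'.2,
                  show y.1.1 = (a : K) from congrArg Prod.fst hy'.2]
              have f2 : x.2.2 = y.2.2 := by
                rw [show x.2.2 = (b : K)⁻¹ from congrArg Prod.snd hx'.2,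
                  show y.2.2 = (b : K)⁻¹ from congrArg Prod.snd hy'.2]
              have f3 : c = c' := by
                apply RingOfIntegers.coe_injective
                show (c : K) = c'
                rw [← e1, ← e1', hxy']
              have f4 : d = d' := by
                subst f3
                exact mul_left_cancel₀ (h0 c hc) (e3.symm.trans e3')
              have f5 : x.2.1 = y.2.1 := by rw [e2, e2', f4]
              exact Prod.ext (Prod.ext f1 hxy') (Prod.ext f5 f2)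
        _ ≤ _ := Finset.card_image_le
  have h1 := Finset.le_card_mul_mul_mulEnergy s t
  rw [hsc, htc] at h1
  rw [Finset.card_product, hsc, htc] at hE
  rcases Nat.eq_zero_or_pos B.card with hB | hB
  · rw [hB]; simp
  have h2 : B.card ^ 2 * B.card ^ 2 ≤
      (((B ×ˢ B).image fun p => (p.1 : K) / (p.2 : K)).card * D) * B.card ^ 2 := by
    refine h1.trans ((Nat.mul_le_mul (Finset.card_le_card hst) hE).trans (le_of_eq ?_))
    ring
  exact Nat.le_of_mul_le_mul_right h2 (by positivity)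

theorem norm_le (z : 𝓞 K) {T : ℝ} (h : house (z : K) ≤ T) :
    (Ideal.absNorm (Ideal.span {z}) : ℝ) ≤ T ^ Module.finrank ℚ K := by
  rw [Ideal.absNorm_span_singleton]
  have h1 : (((Algebra.norm ℤ z).natAbs : ℕ) : ℝ) = |((Algebra.norm ℚ (z : K) : ℚ) : ℝ)| := by
    rw [← Algebra.coe_norm_int, Nat.cast_natAbs]
    push_cast
    rfl
  rw [h1]
  have h2 := InfinitePlace.prod_eq_abs_norm (K := K) (z : K)
  have h3 : |((Algebra.norm ℚ (z : K) : ℚ) : ℝ)| = ∏ w : InfinitePlace K, w (z : K) ^ w.mult := by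
    rw [h2]; push_cast; rfl
  rw [h3]
  calc ∏ w : InfinitePlace K, w (z : K) ^ w.mult ≤ ∏ w : InfinitePlace K, T ^ w.mult := by
        refine Finset.prod_le_prod (fun w _ => pow_nonneg (apply_nonneg _ _) _) fun w _ => ?_
        exact pow_le_pow_left₀ (apply_nonneg _ _) ((av_inl_le_house w _).trans h) _
    _ = T ^ Module.finrank ℚ K := by
        rw [Finset.prod_pow_eq_pow_sum, InfinitePlace.sum_mult_eq]

theorem fv_unit {c c' : 𝓞 K} (hc : c ≠ 0) (h : Ideal.span {c} = Ideal.span {c'}) (v : Pr K) :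
    fv v ((c : K) / c') = 1 := by
  have hc' : c' ≠ 0 := by
    rintro rfl
    rw [Ideal.span_singleton_eq_span_singleton] at h
    exact hc ((associated_zero_iff_eq_zero _).1 h)
  rw [Ideal.span_singleton_eq_span_singleton] at h
  obtain ⟨u, hu⟩ := h
  have e : ((c' : 𝓞 K) : K) = (c : K) * ((u : 𝓞 K) : K) := by rw [← hu]; rfl
  have huu : ((u : 𝓞 K) : K) * (((u⁻¹ : (𝓞 K)ˣ) : 𝓞 K) : K) = 1 := by
    have : (u : 𝓞 K) * ((u⁻¹ : (𝓞 K)ˣ) : 𝓞 K) = 1 := by rw [← Units.val_mul]; simp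
    calc ((u : 𝓞 K) : K) * (((u⁻¹ : (𝓞 K)ˣ) : 𝓞 K) : K)
        = (((u : 𝓞 K) * ((u⁻¹ : (𝓞 K)ˣ) : 𝓞 K) : 𝓞 K) : K) := rfl
      _ = 1 := by rw [this]; rfl
  have h1 := fv_int_le v (u : 𝓞 K)
  have h2 := fv_int_le v ((u⁻¹ : (𝓞 K)ˣ) : 𝓞 K)
  have h3 : fv v ((u : 𝓞 K) : K) * fv v (((u⁻¹ : (𝓞 K)ˣ) : 𝓞 K) : K) = 1 := by
    rw [← map_mul, huu, map_one]
  have n1 := (fv v).nonneg ((u : 𝓞 K) : K)
  have n2 := (fv v).nonneg (((u⁻¹ : (𝓞 K)ˣ) : 𝓞 K) : K)
  have h4 : fv v ((u : 𝓞 K) : K) = 1 := by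
    refine le_antisymm h1 ?_
    by_contra hcon
    push Not at hcon
    nlinarith
  rw [map_div₀, e, map_mul, h4, mul_one, div_self]
  exact ((fv v).pos (coe_ne hc)).ne'

open Classical in
theorem D_bound (K : Type) [Field K] [NumberField K] (ε : ℝ) (hε : 0 < ε) :
    ∃ C : ℝ, 0 < C ∧ ∀ T : ℝ, 1 ≤ T → ∀ B : Finset (𝓞 K),
      (∀ a ∈ B, a ≠ 0 ∧ house (a : K) ≤ T) → ∀ a ∈ B, ∀ b ∈ B,
        ((B.filter fun c => c ∣ a * b).card : ℝ) ≤ C * T ^ ε := by
  have hd : 0 < Module.finrank ℚ K := Module.finrank_pos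
  set d := Module.finrank ℚ K with hdd
  have hd0 : (0 : ℝ) < d := by exact_mod_cast hd
  set r := Fintype.card (InfinitePlace K) with hrr
  have hr : 0 < r := Fintype.card_pos
  have hr0 : (0 : ℝ) < r := by exact_mod_cast hr
  obtain ⟨C₁, hC₁, h1⟩ := Pool.Agent.W578.CF.t_DIVS K (ε / (4 * d)) (by positivity)
  obtain ⟨C₀, h2⟩ := units_card K
  set η : ℝ := ε / (2 * r) with hη
  have hη0 : 0 < η := by positivity
  set C₂ : ℝ := 4 * d / η + 3 with hC₂
  have hC₂0 : 0 < C₂ := by positivity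
  refine ⟨C₁ * ((C₀ + 1) * C₂ ^ r), by positivity, fun T hT B hB a ha b hb => ?_⟩
  have hT0 : 0 < T := by linarith
  have hlT : 0 ≤ Real.log T := Real.log_nonneg hT
  set R : ℝ := 2 * (d * Real.log T) with hR
  have hR0 : 0 ≤ R := by positivity
  have hfib : ∀ J ∈ (B.filter fun c => c ∣ a * b).image (fun c => Ideal.span {c}),
      ((B.filter fun c => c ∣ a * b).filter fun c => Ideal.span {c} = J).card ≤
        C₀ * (2 * ⌈R⌉₊ + 1) ^ r := by
    intro J hJ
    obtain ⟨c₀, hc₀, rfl⟩ := Finset.mem_image.1 hJ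
    have hc₀B := (Finset.mem_filter.1 hc₀).1
    have hc₀0 := (hB c₀ hc₀B).1
    have hne0 := coe_ne hc₀0
    have hinj : Function.Injective fun c : 𝓞 K => (c : K) / c₀ := by
      intro x y hxy
      apply RingOfIntegers.coe_injective
      exact (div_left_inj' hne0).1 hxy
    rw [← Finset.card_image_of_injective _ hinj]
    refine h2 R hR0 _ ?_
    intro u hu
    obtain ⟨c, hc, rfl⟩ := Finset.mem_image.1 hu
    obtain ⟨hc1, hc2⟩ := Finset.mem_filter.1 hc
    have hcB := (Finset.mem_filter.1 hc1).1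
    have hc0 := (hB c hcB).1
    have hne := coe_ne hc0
    refine ⟨div_ne_zero hne hne0, fun v => fv_unit hc0 hc2 v, fun w => ?_⟩
    have hmult : (w.mult : ℝ) ≤ d := by
      rw [hdd, ← sum_mult (K := K)]
      exact Finset.single_le_sum (f := fun w : InfinitePlace K => (w.mult : ℝ))
        (fun w _ => Nat.cast_nonneg _) (Finset.mem_univ w)
    have up : ∀ x : 𝓞 K, x ≠ 0 → house (x : K) ≤ T → lg (Sum.inl w : Pl K) (x : K) ≤ d * Real.log T := by
      intro x hx hxT
      show (w.mult : ℝ) * Real.log (av (Sum.inl w : Pl K) (x : K)) ≤ _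
      have h3 : Real.log (av (Sum.inl w : Pl K) (x : K)) ≤ Real.log T :=
        Real.log_le_log ((av _).pos (coe_ne hx)) ((av_inl_le_house w _).trans hxT)
      calc (w.mult : ℝ) * Real.log (av (Sum.inl w : Pl K) (x : K)) ≤ (w.mult : ℝ) * Real.log T :=
            mul_le_mul_of_nonneg_left h3 (Nat.cast_nonneg _)
        _ ≤ _ := mul_le_mul_of_nonneg_right hmult hlT
    have u1 := up c hc0 (hB c hcB).2
    have u2 := up c₀ hc₀0 (hB c₀ hc₀B).2
    have l1 := liouville (Sum.inl w : Pl K) hc0 hT (hB c hcB).2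
    have l2 := liouville (Sum.inl w : Pl K) hc₀0 hT (hB c₀ hc₀B).2
    have e : lg (Sum.inl w : Pl K) ((c : K) / c₀) = lg (Sum.inl w : Pl K) (c : K) -
        lg (Sum.inl w : Pl K) (c₀ : K) := lg_div _ hne hne0
    show |lg (Sum.inl w : Pl K) ((c : K) / c₀)| ≤ R
    rw [e, hR, abs_le]
    constructor <;> linarith
  have hcard := Finset.card_le_mul_card_image _ _ hfib
  -- the ideals
  have ha0 := (hB a ha).1
  have hb0 := (hB b hb).1
  have hab : a * b ≠ 0 := mul_ne_zero ha0 hb0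
  set n := Ideal.absNorm (Ideal.span {a * b}) with hn
  have hn1 : 1 ≤ n := by
    rw [Nat.one_le_iff_ne_zero, hn, Ne, Ideal.absNorm_eq_zero_iff, Ideal.span_singleton_eq_bot]
    exact hab
  have hcardI := h1 n hn1 ((B.filter fun c => c ∣ a * b).image (fun c => Ideal.span {c})) (by
    intro J hJ
    obtain ⟨c, hc, rfl⟩ := Finset.mem_image.1 hJ
    have hc2 := (Finset.mem_filter.1 hc).2
    have h4 : Ideal.span {a * b} ∣ Ideal.span {(n : 𝓞 K)} := by
      rw [Ideal.dvd_span_singleton]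
      exact Ideal.absNorm_mem _
    have h5 : Ideal.span {c} ∣ Ideal.span {a * b} := by
      rw [Ideal.dvd_span_singleton, Ideal.mem_span_singleton]
      exact hc2
    exact h5.trans h4)
  have hhouse : house ((a * b : 𝓞 K) : K) ≤ T * T := by
    have e : ((a * b : 𝓞 K) : K) = (a : K) * b := rfl
    rw [e]
    exact (house_mul_le _ _).trans (mul_le_mul (hB a ha).2 (hB b hb).2 (house_nonneg _) hT0.le)
  have hnle : (n : ℝ) ≤ (T * T) ^ d := norm_le _ hhouse
  have hI : (((B.filter fun c => c ∣ a * b).image (fun c => Ideal.span {c})).card : ℝ) ≤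
      C₁ * T ^ (ε / 2) := by
    refine hcardI.trans (mul_le_mul_of_nonneg_left ?_ hC₁.le)
    refine (Real.rpow_le_rpow (Nat.cast_nonneg _) hnle (by positivity)).trans (le_of_eq ?_)
    rw [← pow_two, ← pow_mul, ← Real.rpow_natCast, ← Real.rpow_mul hT0.le]
    congr 1
    push_cast
    field_simp
    ring
  have hU : (((C₀ * (2 * ⌈R⌉₊ + 1) ^ r : ℕ)) : ℝ) ≤ (C₀ + 1) * C₂ ^ r * T ^ (ε / 2) := by
    push_cast
    have h5 : (⌈R⌉₊ : ℝ) ≤ R + 1 := (Nat.ceil_lt_add_one hR0).le
    have h6 : Real.log T ≤ T ^ η / η := Real.log_le_rpow_div hT0.le hη0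
    have h7 : 1 ≤ T ^ η := Real.one_le_rpow hT hη0.le
    have h8 : (2 * (⌈R⌉₊ : ℝ) + 1) ≤ C₂ * T ^ η := by
      calc (2 * (⌈R⌉₊ : ℝ) + 1) ≤ 2 * (R + 1) + 1 := by linarith
        _ = 4 * d * Real.log T + 3 := by rw [hR]; ring
        _ ≤ 4 * d * (T ^ η / η) + 3 * T ^ η := by
            have := mul_le_mul_of_nonneg_left h6 (by positivity : (0 : ℝ) ≤ 4 * d)
            linarith
        _ = C₂ * T ^ η := by rw [hC₂]; ring
    have h9 : (2 * (⌈R⌉₊ : ℝ) + 1) ^ r ≤ C₂ ^ r * T ^ (ε / 2) := by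
      refine (pow_le_pow_left₀ (by positivity) h8 r).trans (le_of_eq ?_)
      rw [mul_pow, ← Real.rpow_natCast (T ^ η), ← Real.rpow_mul hT0.le]
      congr 2
      rw [hη]
      field_simp
    have h10 : (C₀ : ℝ) * (2 * (⌈R⌉₊ : ℝ) + 1) ^ r ≤ (C₀ + 1) * (C₂ ^ r * T ^ (ε / 2)) :=
      mul_le_mul (by linarith) h9 (by positivity) (by positivity)
    linarith
  calc ((B.filter fun c => c ∣ a * b).card : ℝ)
      ≤ ((C₀ * (2 * ⌈R⌉₊ + 1) ^ r : ℕ) : ℝ) *
        (((B.filter fun c => c ∣ a * b).image (fun c => Ideal.span {c})).card : ℝ) := by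
        exact_mod_cast hcard
    _ ≤ ((C₀ + 1) * C₂ ^ r * T ^ (ε / 2)) * (C₁ * T ^ (ε / 2)) :=
        mul_le_mul hU hI (Nat.cast_nonneg _) (by positivity)
    _ = C₁ * ((C₀ + 1) * C₂ ^ r) * (T ^ (ε / 2) * T ^ (ε / 2)) := by ring
    _ = C₁ * ((C₀ + 1) * C₂ ^ r) * T ^ ε := by
        rw [← Real.rpow_add hT0]; congr 2; ring

end Pool.Agent.Y812.LK
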